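import Pool.Agent.J4.H86.EB.Fin
import Pool.Agent.J4.H86.EB.Pat

/-!
# Blocks of ordinates: all real polynomials of bounded degree at once

No hypothesis.  `γ_1 ≤ γ_2 ≤ …` are the ordinates of the nontrivial zeros of the zeta function, with
multiplicity.  Fix `k`, `d`, `σ > 0`, `0 < η ≤ 1`.  Let `r` be large, `2 r log (2 r) ≤ log N`, and let
`b_1, …, b_k` be shifts with `r ^ σ ≤ b_i ≤ r` and `|b_i - b_j| ≥ r ^ σ` for `i ≠ j`; let `b_0 = 0`.

1. For all but `η N` of the `n ≤ N` EVERY nonzero real polynomial `P` in `k + 1` variables, of degree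
at most `d` in each, has the following property (so `P` may depend on `n`): for all but at most `η r`
of the `m` with `n ≤ m < n + r` the relation `P (γ_m, y_1, …, y_k) = 0` fails for all real `y_i` within
`δ √(log r) / log γ_m` of `γ_{m + b_i}`.  In other words, no algebraic hypersurface of degree at most
`d` in each variable contains more than `η r` of the points `(γ_m, γ_{m + b_1}, …, γ_{m + b_k})`,
`n ≤ m < n + r`, even approximately.

2. Let `n_1, …, n_J` be any such `n`, arbitrary otherwise, and `J` as large as we like.  No nonzero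
real polynomial in `J (k + 1)` variables, of degree at most `d` in each, vanishes for more than
`r ^ J - ((1 - η) r) ^ J` of the choices of `m_j` with `n_j ≤ m_j < n_j + r` at the ordinates
`γ_{m_j + b_i}`, `1 ≤ j ≤ J`, `0 ≤ i ≤ k`.

3. For every `J` and large `r`, for all but `η N ^ J` of the tuples `(n_1, …, n_J)` of integers up to
`N`, no nonzero real polynomial in `J (k + 1)` variables of degree at most `d` in each vanishes for
more than `η r` of the `i < r` at the ordinates `γ_{n_j + i + b_l}`, `1 ≤ j ≤ J`, `0 ≤ l ≤ k`.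

The proof.  If one polynomial, with unknown coefficients, vanishes at all the points of a subset of
density `η` of the block, then the determinant of the matrix of the monomials at any `(d + 1) ^ (k + 1)`
of these points vanishes.  This is a fixed polynomial in more ordinates, whose distances are large
for most choices of the points, so that the theorem for fixed polynomials applies; the exceptional
sets are compared by double counting.
-/

set_option autoImplicit false

open Filter MvPolynomial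

namespace Pool.Agent.Results.MP_ec260d_nt.EveryPolynomialInBlocks

/-- multiplicity of `s` as a zero of the Riemann zeta function (order of vanishing at `s`) -/
noncomputable def zmult (s : ℂ) : ℕ := analyticOrderNatAt riemannZeta s

/-- the number of nontrivial zeros of `ζ` with ordinate in `(0, t]`, with multiplicity -/
noncomputable def NZ (t : ℝ) : ℕ :=
  ∑ᶠ s ∈ {s : ℂ | riemannZeta s = 0 ∧ 0 < s.re ∧ s.re < 1 ∧ 0 < s.im ∧ s.im ≤ t}, zmult s

/-- for `n ≥ 1`: the `n`-th positive ordinate `γ n` of a nontrivial zero of `ζ`, the ordinates being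
listed in nondecreasing order and repeated according to multiplicity -/
noncomputable def γ (n : ℕ) : ℝ := sInf {t : ℝ | n ≤ NZ t}

/-- `P (γ_m, y_1, ..., y_k) = 0` for some real `y_1, ..., y_k` with `|γ_{m + b_i} - y_i| ≤ ε / log γ_m`
(that is, within `ε / 2π` mean spacings) for all `i` -/
def Related {k : ℕ} (P : MvPolynomial (Fin (k + 1)) ℝ) (b : Fin k → ℕ) (ε : ℝ) (m : ℕ) : Prop :=
  ∃ y : Fin k → ℝ, MvPolynomial.eval (Fin.cons (γ m) y : Fin (k + 1) → ℝ) P = 0 ∧
    ∀ i, |γ (m + b i) - y i| ≤ ε / Real.log (γ m)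

/-- the shifts `b_1, ..., b_k ≤ r` are separated from `0` and from each other by at least `r ^ σ` -/
def Spaced {k : ℕ} (σ : ℝ) (r : ℕ) (b : Fin k → ℕ) : Prop :=
  (∀ i, (r : ℝ) ^ σ ≤ b i ∧ b i ≤ r) ∧ ∀ i j, i ≠ j → (r : ℝ) ^ σ ≤ |(b i : ℝ) - b j|

/-- the shifts `0, b_1, ..., b_k` -/
def shift {k : ℕ} (b : Fin k → ℕ) : Fin (k + 1) → ℕ := Fin.cons 0 b

/-- the nonzero real polynomials of degree at most `d` in each of the variables -/
def Polys (V : Type) (d : ℕ) : Set (MvPolynomial V ℝ) := {P | P ≠ 0 ∧ ∀ v, P.degreeOf v ≤ d}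

open Classical in
/-- **All real polynomials of bounded degree, in blocks of ordinates.** -/
theorem result (k d : ℕ) (σ η : ℝ) (hσ : 0 < σ) (hη : 0 < η) (hη1 : η ≤ 1) :
    (∃ δ : ℝ, 0 < δ ∧ ∃ r₀ : ℕ, ∀ r : ℕ, r₀ ≤ r → ∀ N : ℕ, 1 ≤ N →
      (2 * r : ℝ) * Real.log (2 * r) ≤ Real.log N → ∀ b : Fin k → ℕ, Spaced σ r b →
      ∃ G : Finset ℕ, G ⊆ Finset.Icc 1 N ∧ (1 - η) * N ≤ G.card ∧
        -- one block
        (∀ n ∈ G, ∀ P ∈ Polys (Fin (k + 1)) d,
          (((Finset.Ico n (n + r)).filter (Related P b (δ * Real.sqrt (Real.log r)))).card : ℝ) ≤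
            η * r) ∧
        -- independent places in any number of blocks
        ∀ (J : ℕ) (n : Fin J → ℕ), (∀ j, n j ∈ G) → ∀ P ∈ Polys (Fin J × Fin (k + 1)) d,
          ((1 - η) * r) ^ J ≤ (((Fintype.piFinset (fun j => Finset.Ico (n j) (n j + r))).filter
            (fun m : Fin J → ℕ =>
              eval (fun v : Fin J × Fin (k + 1) => γ (m v.1 + shift b v.2)) P ≠ 0)).card : ℝ)) ∧
    -- parallel places in `J` blocks
    ∀ J : ℕ, ∃ r₁ : ℕ, ∀ r : ℕ, r₁ ≤ r → ∀ N : ℕ, 1 ≤ N →
      (2 * r : ℝ) * Real.log (2 * r) ≤ Real.log N → ∀ b : Fin k → ℕ, Spaced σ r b →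
      (((Fintype.piFinset (fun _ : Fin J => Finset.Icc 1 N)).filter (fun n : Fin J → ℕ =>
        ∃ P ∈ Polys (Fin J × Fin (k + 1)) d,
          η * r < (((Finset.range r).filter (fun i =>
            eval (fun v : Fin J × Fin (k + 1) => γ (n v.1 + i + shift b v.2)) P = 0)).card :
              ℝ))).card : ℝ) ≤ η * (N : ℝ) ^ J := by
  have hmain : Pool.Agent.J4.H86.EB.Rare γ := by
    intro V _ _ v0 d σ η hσ hη
    exact Pool.Agent.J4.H86.EB.mainV V v0 d σ η hσ hη
  have hmono : ∀ m n, 1 ≤ m → m ≤ n → γ m ≤ γ n := fun m n hm hmn => SG.ord_mono hm hmn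
  obtain ⟨n0, hg1⟩ : ∃ n0 : ℕ, ∀ n, n0 ≤ n → 1 < γ n :=
    (SG.ord_tendsto.eventually_gt_atTop 1).exists_forall_of_atTop
  refine ⟨?_, fun J => ?_⟩
  · obtain ⟨δ, hδ, r₀, h⟩ := Pool.Agent.J4.H86.EB.fin γ n0 hg1 hmono hmain k d σ η hσ hη hη1
    refine ⟨δ, hδ, r₀, fun r hr N hN hrN b hb => ?_⟩
    obtain ⟨G, hG1, hG2, hG3, hG4⟩ := h r hr N hN hrN b hb.1 hb.2
    exact ⟨G, hG1, hG2, fun n hn P hP => hG3 n hn P hP.1 hP.2,
      fun J n hn P hP => hG4 J n hn P hP.1 hP.2⟩
  · obtain ⟨r₁, h⟩ := Pool.Agent.J4.H86.EB.fin2 γ n0 hg1 hmain k d σ η hσ hη hη1 J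
    refine ⟨r₁, fun r hr N hN hrN b hb => ?_⟩
    refine le_trans (le_of_eq ?_) (h r hr N hN hrN b hb.1 hb.2)
    congr 2
    refine Finset.filter_congr fun n _ => ?_
    constructor
    · rintro ⟨P, hP, h⟩
      exact ⟨P, hP.1, hP.2, h⟩
    · rintro ⟨P, h1, h2, h⟩
      exact ⟨P, ⟨h1, h2⟩, h⟩

end Pool.Agent.Results.MP_ec260d_nt.EveryPolynomialInBlocks
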