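import Pool.Agent.J4.H86.FT.Pol
import Pool.Agent.J4.H86.FT.Ord

/-!
# Relations with few terms and of large degree between the ordinates

No hypothesis.  `γ_1 ≤ γ_2 ≤ …` are the ordinates of the nontrivial zeros of the zeta function, with
multiplicity.  Fix the number `K` of ordinates in a tuple, the number `T` of terms, `σ > 0` and
`0 < η ≤ 1`.  Let `r ≥ r₀` be large, let `b_1, …, b_K ≤ r` be shifts any two of which differ by at
least `r ^ σ`, and let `N ≥ N₀`, where `κ > 0` and `N₀` depend on `r`.  Except for at most `η N` of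
them, the integers `n ≤ N` have the following properties.

1. Consider ALL the functions `f (x) = ∑ t, c_t ∏ i, x_i ^ (α_(t, i))` with at most `T` terms, with
arbitrary real coefficients and arbitrary real exponents of modulus at most `κ N`, which do not vanish
identically for `x > 0`.  None of them has zeros near to more than `η r` of the `r` points
`(γ_(m + b_1), …, γ_(m + b_K))`, `n ≤ m < n + r`; near means within `δ √(log r) / log γ_m` in each
coordinate.  So `f` may depend on `n`, and there are no polynomial relations with at most `T` terms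
whose degrees are as large as `κ N`.

2. Let `n_1, …, n_J` be any such integers `n`, arbitrary otherwise, and `J` as large as we like.  No such
function of `J K` variables vanishes for more than `r ^ J - ((1 - η) r) ^ J` of the choices of `m_j`
with `n_j ≤ m_j < n_j + r` at the ordinates `γ_(m_j + b_i)`.

3. In particular this holds for all nonzero real polynomials in `J K` variables with at most `T` monomials
and with all degrees at most `κ N`.

The proof.  In a block all the ordinates are near to `γ_n`, and in the scale of the mean spacing `f` is,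
up to a factor, a sum of `T` exponentials with small exponents, that is close to its Taylor polynomial
of degree less than `T`: this follows from the linear recurrence of the power sums of the exponents.
If `f` has zeros near to many points of a block, then, by compactness, there are near points at which
the determinant of the monomials vanishes.  This is a fixed polynomial in the differences of
ordinates, to which the theorem on fixed polynomials applies.
-/

set_option autoImplicit false

open Filter MvPolynomial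

namespace Pool.Agent.Results.MP_ec260d_nt.FewTermsLargeDegree

/-- multiplicity of `s` as a zero of the Riemann zeta function (order of vanishing at `s`) -/
noncomputable def zmult (s : ℂ) : ℕ := analyticOrderNatAt riemannZeta s

/-- the number of nontrivial zeros of `ζ` with ordinate in `(0, t]`, with multiplicity -/
noncomputable def NZ (t : ℝ) : ℕ :=
  ∑ᶠ s ∈ {s : ℂ | riemannZeta s = 0 ∧ 0 < s.re ∧ s.re < 1 ∧ 0 < s.im ∧ s.im ≤ t}, zmult s

/-- for `n ≥ 1`: the `n`-th positive ordinate `γ n` of a nontrivial zero of `ζ`, the ordinates being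
listed in nondecreasing order and repeated according to multiplicity -/
noncomputable def γ (n : ℕ) : ℝ := sInf {t : ℝ | n ≤ NZ t}

/-- the functions `x ↦ ∑ t, c t * ∏ v, x v ^ (α t v)` with at most `T` terms and with real exponents of
modulus at most `M`, which do not vanish identically for `x > 0` -/
def FewTerms (V : Type) [Fintype V] (T : ℕ) (M : ℝ) : Set ((V → ℝ) → ℝ) :=
  {f | ∃ (c : Fin T → ℝ) (α : Fin T → V → ℝ), (∀ t v, |α t v| ≤ M) ∧
    (f = fun x => ∑ t, c t * ∏ v, x v ^ α t v) ∧ ∃ x : V → ℝ, (∀ v, 0 < x v) ∧ f x ≠ 0}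

/-- `f (y) = 0` for some real `y_i` with `|γ_{m + b_i} - y_i| ≤ ε / log γ_m`, that is, within `ε / 2π`
mean spacings, for all `i` -/
def NearZero {K : ℕ} (f : (Fin K → ℝ) → ℝ) (b : Fin K → ℕ) (ε : ℝ) (m : ℕ) : Prop :=
  ∃ y : Fin K → ℝ, f y = 0 ∧ ∀ i, |γ (m + b i) - y i| ≤ ε / Real.log (γ m)

/-- the shifts `b_1, ..., b_K ≤ r` differ by at least `r ^ σ` -/
def Spaced {K : ℕ} (σ : ℝ) (r : ℕ) (b : Fin K → ℕ) : Prop :=
  (∀ i, b i ≤ r) ∧ ∀ i j, i ≠ j → (r : ℝ) ^ σ ≤ |(b i : ℝ) - b j|

open Classical in
/-- **Relations with few terms and of large degree.** -/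
theorem result (K T : ℕ) (σ η : ℝ) (hσ : 0 < σ) (hη : 0 < η) (hη1 : η ≤ 1) :
    ∃ δ : ℝ, 0 < δ ∧ ∃ r₀ : ℕ, ∀ r : ℕ, r₀ ≤ r → ∃ κ : ℝ, 0 < κ ∧ ∃ N₀ : ℕ, ∀ N : ℕ, N₀ ≤ N →
      ∀ b : Fin K → ℕ, Spaced σ r b →
      ∃ G : Finset ℕ, G ⊆ Finset.Icc 1 N ∧ (1 - η) * N ≤ G.card ∧
        -- one block
        (∀ n ∈ G, ∀ f ∈ FewTerms (Fin K) T (κ * N),
          (((Finset.Ico n (n + r)).filter (NearZero f b (δ * Real.sqrt (Real.log r)))).card : ℝ) ≤
            η * r) ∧
        -- any number of blocks
        (∀ (J : ℕ) (n : Fin J → ℕ), (∀ j, n j ∈ G) → ∀ f ∈ FewTerms (Fin J × Fin K) T (κ * N),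
          ((1 - η) * r) ^ J ≤ (((Fintype.piFinset (fun j => Finset.Ico (n j) (n j + r))).filter
            (fun m : Fin J → ℕ =>
              f (fun v : Fin J × Fin K => γ (m v.1 + b v.2)) ≠ 0)).card : ℝ)) ∧
        -- in particular for polynomials
        (∀ (J : ℕ) (n : Fin J → ℕ), (∀ j, n j ∈ G) → ∀ P : MvPolynomial (Fin J × Fin K) ℝ,
          P ≠ 0 → P.support.card ≤ T → (∀ v, (P.degreeOf v : ℝ) ≤ κ * N) →
          ((1 - η) * r) ^ J ≤ (((Fintype.piFinset (fun j => Finset.Ico (n j) (n j + r))).filter
            (fun m : Fin J → ℕ =>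
              eval (fun v : Fin J × Fin K => γ (m v.1 + b v.2)) P ≠ 0)).card : ℝ)) := by
  obtain ⟨δ, hδ, r₀, h⟩ := Pool.Agent.J4.H86.FT.fin Pool.Agent.J4.H86.FT.seq_ord K T σ η hσ hη hη1
  refine ⟨δ, hδ, r₀, fun r hr => ?_⟩
  obtain ⟨κ, hκ, N₀, h⟩ := h r hr
  refine ⟨κ, hκ, N₀, fun N hN b hb => ?_⟩
  obtain ⟨G, hG1, hG2, hG3, hG4⟩ := h N hN b hb.1 hb.2
  refine ⟨G, hG1, hG2, fun n hn f hf => hG3 n hn f hf, fun J n hn f hf => hG4 J n hn f hf, ?_⟩
  intro J n hn P hP0 hPT hPd
  exact hG4 J n hn (fun x => eval x P)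
    (Pool.Agent.J4.H86.FT.poly_mem (mul_nonneg hκ.le (Nat.cast_nonneg N)) P hP0 hPT hPd)

end Pool.Agent.Results.MP_ec260d_nt.FewTermsLargeDegree
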