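import Pool.Agent.J4.H74.OZ.Mul
import Pool.Agent.J4.H74.OZ.Ex
import Pool.Agent.Results.MP_ec260d_nt.ThreeVariableRelations

/-!
# Relations between two ordinates and a number near the value of a multiplicative function

No hypothesis is assumed. Let `F (u, v)` be positive and homogeneous of degree one for `u, v > 0`, smooth, and such
that `F_v` and `F_uv` have no zero; for instance `F (u, v) = (b u^p + c v^p)^(1/p)`, `p ≠ 0, 1`, or `u^α v^(1 - α)`,
`α ≠ 0, 1`. We consider the relations `γ' = F (a, γ)` between two ordinates and a real number `a`, for instance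
`γ' ^ k = γ ^ k + a ^ k`, `γ γ' = a²`, `γ'² = a γ` and `a γ' = γ²`; for integers `a` these are polynomial relations
between two ordinates with integral coefficients. Let `B_j` be sets of ordinates of zeros on the critical line, in
`[b₁ 2^j, b₂ 2^j]`, with at least `η 2^j log 2^j` elements (for instance all the ordinates of such zeros, by Selberg's
theorem). There is `c > 0` which depends only on `F`, `b₁`, `b₂`, `η`, such that the relation fails, for a proportion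
at least `c` of the `γ ∈ B_j`, for all zeros, up to an error `c / log a` (a constant multiple of the mean spacing of
the ordinates),

1. for almost all `m`, for ALL real numbers `a` with `|a - V(f(m))| ≤ f(m)^κ`, `2^(j-1) ≤ a < 2^j`, where `f` is a
multiplicative function, like Euler's function and the sum of the divisors, `V` is any function with steps bounded
below by a positive constant and growth at most `v^d`, for example `V(v) = v`, and `11 d / 20 + κ < 1`; the number of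
the exceptional `m ≤ M` is `O(M / (log M)^A)` for every `A`;

2. for almost all `m`, for all `k ≤ K(m)`, `K(m) → ∞`, for ALL real numbers `a` with
`|a - V(f(φ_k(m)))| ≤ f(φ_k(m))^κ`, `φ_k` the iterates of Euler's function.

For instance: for almost all `m` the equation `γ'^k = γ^k + a^k`, `k ≥ 2`, fails for a positive proportion of the
ordinates `γ` of the size of `φ(m)`, for all real `a` in the interval `|a - φ(m)| ≤ φ(m)^(9/20 - ε)`.

The values of such functions have density zero and are taken with very large multiplicities, so this does not follow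
from the number of the exceptional parameters at one scale (`O(T^(11/20))` among 1-spaced parameters, the starting
theorem `ThreeVariableRelations`) alone: the exceptional parameters of all scales are counted
(`Pool.Agent.J4.H74.OZ.near_count`), and the theorems on multiplicative functions and on orbits of Euler's function
of the starting libraries `N733/TG` and `N760/IT` are applied.
-/

set_option autoImplicit false

namespace Pool.Agent.Results.MP_ec260d_nt.MultiplicativeParameters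

open Filter Topology Complex

/-- `f` is multiplicative, positive and of polynomial growth, and for the large primes `p` we have
`f(p) ≤ M p`, and different large primes have different values -/
structure LinearAtPrimes (f : ℕ → ℕ) : Prop where
  mul : ∀ m n : ℕ, Nat.Coprime m n → f (m * n) = f m * f n
  pos : ∀ m : ℕ, 1 ≤ m → 1 ≤ f m
  growth : ∃ C D : ℕ, ∀ m : ℕ, 1 ≤ m → f m ≤ C * m ^ D
  prime : ∃ P M : ℕ, ∀ p : ℕ, P ≤ p → p.Prime →
    f p ≤ M * p ∧ ∀ q : ℕ, P ≤ q → q.Prime → f q = f p → q = p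

/-- the steps of `V` are at least a positive constant, and `V(v) ≤ C v^d`, where `d ≥ 1` -/
structure Expanding (V : ℕ → ℝ) (d : ℝ) : Prop where
  one_le : 1 ≤ d
  step : ∃ a : ℝ, 0 < a ∧ ∀ v : ℕ, 1 ≤ v → a ≤ V (v + 1) - V v
  growth : ∃ C : ℝ, ∀ v : ℕ, 1 ≤ v → V v ≤ C * (v : ℝ) ^ d

/-- For `u, v > 0`: `F (u, v)` is positive and homogeneous of degree one, it has continuous partial derivatives `F_u`,
`F_uu`, `F_v`, `F_uv`, `F_uuv`, and `F_v` and `F_uv` have no zero. -/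
def Homogeneous (F : ℝ → ℝ → ℝ) : Prop :=
  (∀ t u v : ℝ, 0 < t → 0 < u → 0 < v → F (t * u) (t * v) = t * F u v) ∧
  ∃ Fu Fuu Fv Fuv Fuuv : ℝ → ℝ → ℝ,
    (∀ u v : ℝ, 0 < u → 0 < v → HasDerivAt (fun u => F u v) (Fu u v) u ∧ HasDerivAt (fun u => Fu u v) (Fuu u v) u ∧
      HasDerivAt (fun v => F u v) (Fv u v) v ∧ HasDerivAt (fun v => Fu u v) (Fuv u v) v ∧
      HasDerivAt (fun v => Fuu u v) (Fuuv u v) v) ∧
    (∀ G ∈ [F, Fu, Fuu, Fv, Fuv, Fuuv],
      ContinuousOn (fun z : ℝ × ℝ => G z.1 z.2) (Set.Ioi 0 ×ˢ Set.Ioi 0)) ∧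
    ∀ u v : ℝ, 0 < u → 0 < v → 0 < F u v ∧ Fv u v ≠ 0 ∧ Fuv u v ≠ 0

/-- the sets `B j` consist of ordinates `γ` of zeros `1/2 + i γ` of the zeta function, `b₁ 2^j ≤ γ ≤ b₂ 2^j`, and have
at least `η 2^j log 2^j` elements for large `j` -/
def Critical (b₁ b₂ η : ℝ) (B : ℕ → Finset ℝ) : Prop :=
  (∀ j : ℕ, ∀ γ ∈ B j, b₁ * 2 ^ j ≤ γ ∧ γ ≤ b₂ * 2 ^ j ∧ riemannZeta (1 / 2 + I * (γ : ℂ)) = 0) ∧
  ∀ᶠ j : ℕ in atTop, η * 2 ^ j * Real.log (2 ^ j) ≤ (B j).card

/-- the scale of `a`: `2 ^ (scale a - 1) ≤ a < 2 ^ (scale a)` for `a ≥ 1` -/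
noncomputable def scale (a : ℝ) : ℕ := Nat.log 2 ⌊a⌋₊ + 1

/-- The relation `γ' = F (a, γ)` fails: for at least `c |B|` of the `γ ∈ B`, `B` the set of the scale of `a`, no zero of
the zeta function is closer than `c / log a` to `1/2 + i F (a, γ)`. -/
def Fails (F : ℝ → ℝ → ℝ) (B : ℕ → Finset ℝ) (c a : ℝ) : Prop :=
  c * (B (scale a)).card ≤ ({γ : ℝ | γ ∈ B (scale a) ∧ ∀ ρ : ℂ, riemannZeta ρ = 0 →
    c / Real.log a ≤ ‖ρ - (1 / 2 + I * ((F a γ : ℝ) : ℂ))‖}.ncard : ℝ)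

/-- the relation fails for all real numbers `a ≥ 2` with `|a - x| ≤ w` -/
def AllFail (F : ℝ → ℝ → ℝ) (B : ℕ → Finset ℝ) (c x w : ℝ) : Prop :=
  ∀ a : ℝ, 2 ≤ a → |a - x| ≤ w → Fails F B c a

open Classical in
/-- The proportion of the positive integers `m ≤ M` without the property `P` tends to `0`. -/
def AlmostAll (P : ℕ → Prop) : Prop :=
  Tendsto (fun M : ℕ => (((Finset.Icc 1 M).filter (fun m => ¬ P m)).card : ℝ) / M) atTop (𝓝 0)

/-- the bad parameters of a scale -/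
def Bad (F : ℝ → ℝ → ℝ) (B : ℕ → Finset ℝ) (c : ℝ) (j : ℕ) (a : ℝ) : Prop :=
  ({γ : ℝ | γ ∈ B j ∧ ∀ ρ : ℂ, riemannZeta ρ = 0 →
    c / Real.log (2 ^ j) ≤ ‖ρ - (1 / 2 + I * ((F a γ : ℝ) : ℂ))‖}.ncard : ℝ) < c * (B j).card

/-- few parameters are bad -/
lemma few {F : ℝ → ℝ → ℝ} (hF : Homogeneous F) {b₁ b₂ η : ℝ} (hb : 0 < b₁) (hη : 0 < η) :
    ∃ c : ℝ, 0 < c ∧ ∀ B : ℕ → Finset ℝ, Critical b₁ b₂ η B →
      Pool.Agent.J4.H74.OZ.Few (11 / 20) (Bad F B c) := by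
  obtain ⟨hhom, Fu, Fuu, Fv, Fuv, Fuuv, hd, hcont, hne⟩ := hF
  have hu : ∀ u ∈ Set.Icc (1 / 2 : ℝ) 2, 0 < u := fun u hu => lt_of_lt_of_le (by norm_num) hu.1
  have hv : ∀ v ∈ Set.Icc b₁ b₂, 0 < v := fun v hv => lt_of_lt_of_le hb hv.1
  have hsub : Set.Icc (1 / 2 : ℝ) 2 ×ˢ Set.Icc b₁ b₂ ⊆ Set.Ioi (0 : ℝ) ×ˢ Set.Ioi (0 : ℝ) :=
    fun z hz => ⟨hu z.1 hz.1, hv z.2 hz.2⟩
  obtain ⟨c, T₁, hc, h⟩ := ThreeVariableRelations.smooth (1 / 2) 2 b₁ b₂ hb F Fu Fuu Fv Fuv Fuuv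
    (fun u h1 v h2 => ⟨(hd u v (hu u h1) (hv v h2)).1, (hd u v (hu u h1) (hv v h2)).2.1⟩)
    (fun u h1 v h2 => ⟨(hd u v (hu u h1) (hv v h2)).2.2.1, (hd u v (hu u h1) (hv v h2)).2.2.2.1,
      (hd u v (hu u h1) (hv v h2)).2.2.2.2⟩)
    ((hcont F (by simp)).mono hsub) ((hcont Fu (by simp)).mono hsub) ((hcont Fuu (by simp)).mono hsub)
    ((hcont Fv (by simp)).mono hsub) ((hcont Fuv (by simp)).mono hsub) ((hcont Fuuv (by simp)).mono hsub)
    (fun u h1 v h2 => hne u v (hu u h1) (hv v h2)) η hη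
  refine ⟨c, hc, fun B hB => ?_⟩
  obtain ⟨j₁, hj₁⟩ := eventually_atTop.1 hB.2
  have hlim : ∀ᶠ j : ℕ in atTop, T₁ ≤ (2 : ℝ) ^ j :=
    (tendsto_pow_atTop_atTop_of_one_lt (by norm_num : (1 : ℝ) < 2)).eventually_ge_atTop T₁
  obtain ⟨j₂, hj₂⟩ := eventually_atTop.1 hlim
  refine ⟨max j₁ j₂, fun j hj A g w hA hw => ?_⟩
  have hT0 : (0 : ℝ) < 2 ^ j := by positivity
  have h1 := h (2 ^ j) (hj₂ j ((le_max_right _ _).trans hj)) (B j) (hB.1 j) (hj₁ j ((le_max_left _ _).trans hj)) ℕ A g w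
    (fun a ha => ⟨by linarith [(hA a ha).1], (hA a ha).2⟩) hw
  refine le_trans ?_ h1
  have hsub2 : {a : ℕ | a ∈ A ∧ Bad F B c j (g a)} ⊆
      {a : ℕ | a ∈ A ∧ ({γ : ℝ | γ ∈ B j ∧ ∀ ρ : ℂ, riemannZeta ρ = 0 →
        c / Real.log (2 ^ j) ≤ ‖ρ - (1 / 2 + I * (((2 ^ j * F (g a / 2 ^ j) (γ / 2 ^ j) : ℝ)) : ℂ))‖}.ncard : ℝ) <
      c * (B j).card} := by
    rintro a ⟨ha, hbad⟩
    refine ⟨ha, lt_of_le_of_lt (le_of_eq ?_) hbad⟩
    congr 2
    ext γ
    have e : γ ∈ B j → (2 : ℝ) ^ j * F (g a / 2 ^ j) (γ / 2 ^ j) = F (g a) γ := by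
      intro hγ
      have g1 : 0 < g a / 2 ^ j := by
        have := (hA a ha).1
        have : 0 < g a := by linarith
        positivity
      have g2 : 0 < γ / 2 ^ j := by
        have := (hB.1 j γ hγ).1
        have : 0 < γ := lt_of_lt_of_le (by positivity) this
        positivity
      rw [← hhom _ _ _ hT0 g1 g2, mul_div_cancel₀ _ hT0.ne', mul_div_cancel₀ _ hT0.ne']
    constructor
    · rintro ⟨h3, h4⟩
      refine ⟨h3, ?_⟩
      rw [← e h3]
      exact h4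
    · rintro ⟨h3, h4⟩
      refine ⟨h3, ?_⟩
      rw [e h3]
      exact h4
  have hfin : {a : ℕ | a ∈ A ∧ ({γ : ℝ | γ ∈ B j ∧ ∀ ρ : ℂ, riemannZeta ρ = 0 →
        c / Real.log (2 ^ j) ≤ ‖ρ - (1 / 2 + I * (((2 ^ j * F (g a / 2 ^ j) (γ / 2 ^ j) : ℝ)) : ℂ))‖}.ncard : ℝ) <
      c * (B j).card}.Finite := A.finite_toSet.subset fun a ha => ha.1
  exact_mod_cast Set.ncard_le_ncard hsub2 hfin

/-- a good parameter -/
lemma fails_of {F : ℝ → ℝ → ℝ} {B : ℕ → Finset ℝ} {c a : ℝ} (hc : 0 < c) (ha : 2 ≤ a)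
    (h : ¬ Bad F B c (scale a) a) : Fails F B (c / 2) a := by
  unfold Bad at h
  rw [not_lt] at h
  unfold Fails
  have hB : (0 : ℝ) ≤ (B (scale a)).card := Nat.cast_nonneg _
  have h1 : c / 2 * (B (scale a)).card ≤ c * (B (scale a)).card := by nlinarith
  refine h1.trans (h.trans ?_)
  have hla : 0 < Real.log a := Real.log_pos (by linarith)
  obtain ⟨h2, h3⟩ := Pool.Agent.J4.H74.OZ.sc_bounds (show 1 ≤ a by linarith)
  have e : Pool.Agent.J4.H74.OZ.sc a = scale a := rfl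
  rw [e] at h2 h3
  have h4 : Real.log (2 ^ (scale a)) ≤ 2 * Real.log a := by
    have h5 : (2 : ℝ) ^ (scale a) ≤ a ^ 2 := by nlinarith
    have h6 := Real.log_le_log (by positivity) h5
    rw [Real.log_pow a 2] at h6
    exact_mod_cast h6
  have h5 : 0 < Real.log (2 ^ (scale a)) := Real.log_pos (by linarith)
  have h6 : c / 2 / Real.log a ≤ c / Real.log (2 ^ (scale a)) := by
    rw [div_div]
    exact div_le_div_of_nonneg_left hc.le h5 h4
  have hsub : {γ : ℝ | γ ∈ B (scale a) ∧ ∀ ρ : ℂ, riemannZeta ρ = 0 →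
      c / Real.log (2 ^ (scale a)) ≤ ‖ρ - (1 / 2 + I * ((F a γ : ℝ) : ℂ))‖} ⊆
      {γ : ℝ | γ ∈ B (scale a) ∧ ∀ ρ : ℂ, riemannZeta ρ = 0 →
      c / 2 / Real.log a ≤ ‖ρ - (1 / 2 + I * ((F a γ : ℝ) : ℂ))‖} :=
    fun γ hγ => ⟨hγ.1, fun ρ hρ => h6.trans (hγ.2 ρ hρ)⟩
  exact_mod_cast Set.ncard_le_ncard hsub ((B (scale a)).finite_toSet.subset fun γ hγ => hγ.1)

/-- **Relations between two ordinates and a number near the value of a multiplicative function.** Let `F` be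
`Homogeneous`, `0 < b₁` and `η > 0`. There is `c > 0` such that for all sets `B j` of ordinates of zeros on the critical
line (`Critical`), every `V` which is expanding with exponent `d`, `κ ≥ 0`, `11 d / 20 + κ < 1`, and every `f` which is
linear at the primes:

(1) for every `A`, all large `M` and all `m ≤ M` with at most `M / (log M)^A` exceptions, the relation
`γ' = F (a, γ)` fails (`Fails`) for ALL real `a ≥ 2` with `|a - V(f(m))| ≤ f(m)^κ`;

(2) there is `K(m)` tending to infinity such that for almost all `m`, for all `k ≤ K(m)`, the relation fails for ALL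
real `a ≥ 2` with `|a - V(f(φ_k(m)))| ≤ f(φ_k(m))^κ`, where `φ_k` is the `k`-th iterate of Euler's function.

The functions `(b u^p + c v^p)^(1/p)`, `p ≠ 0, 1`, and `u^α v^(1 - α)`, `α ≠ 0, 1`, are `Homogeneous`; Euler's function,
the sum of the divisors and the identity are `LinearAtPrimes`, and `v ↦ α v^d` is expanding for `α > 0`, `d ≥ 1`. -/
theorem result :
    (∀ F : ℝ → ℝ → ℝ, Homogeneous F → ∀ b₁ b₂ η : ℝ, 0 < b₁ → 0 < η → ∃ c : ℝ, 0 < c ∧
      ∀ B : ℕ → Finset ℝ, Critical b₁ b₂ η B → ∀ (V : ℕ → ℝ) (d κ : ℝ), Expanding V d → 0 ≤ κ →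
      d * (11 / 20) + κ < 1 → ∀ f : ℕ → ℕ, LinearAtPrimes f →
        (∀ A : ℕ, ∃ M₀ : ℕ, ∀ M : ℕ, M₀ ≤ M →
          ({m : ℕ | 1 ≤ m ∧ m ≤ M ∧ ¬ AllFail F B c (V (f m)) ((f m : ℝ) ^ κ)}.ncard : ℝ) ≤ M / Real.log M ^ A) ∧
        ∃ K : ℕ → ℕ, Tendsto K atTop atTop ∧ AlmostAll (fun m => ∀ k ≤ K m,
          AllFail F B c (V (f (Nat.totient^[k] m))) ((f (Nat.totient^[k] m) : ℝ) ^ κ))) ∧
    (∀ p b c : ℝ, p ≠ 0 → p ≠ 1 → 0 < b → 0 < c → Homogeneous (fun u v => (b * u ^ p + c * v ^ p) ^ (1 / p))) ∧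
    (∀ α : ℝ, α ≠ 0 → α ≠ 1 → Homogeneous (fun u v => u ^ α * v ^ (1 - α))) ∧
    LinearAtPrimes Nat.totient ∧ LinearAtPrimes (fun m => ∑ d ∈ m.divisors, d) ∧ LinearAtPrimes (fun m => m) ∧
    ∀ α d : ℝ, 0 < α → 1 ≤ d → Expanding (fun v => α * (v : ℝ) ^ d) d := by
  refine ⟨?_, ?_, ?_, ?_, ?_, ?_, ?_⟩
  · intro F hF b₁ b₂ η hb hη
    obtain ⟨c, hc, hfew⟩ := few (b₂ := b₂) hF hb hη
    refine ⟨c / 2, by positivity, fun B hB V d κ hV hκ h1 f hf => ?_⟩
    have hf' : Pool.Agent.N733.TG.LM f := ⟨hf.mul, hf.pos, hf.growth, hf.prime⟩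
    have hV' : Pool.Agent.N733.TG.Expanding V d := ⟨hV.one_le, hV.step, hV.growth⟩
    have hs : (0 : ℝ) ≤ 11 / 20 := by norm_num
    have hall : ∀ x w : ℝ, Pool.Agent.J4.H74.OZ.AllGood (Bad F B c) x w → AllFail F B (c / 2) x w :=
      fun x w h a ha hax => fails_of hc ha (h a ha hax)
    refine ⟨fun A => ?_, ?_⟩
    · obtain ⟨M₀, h⟩ := Pool.Agent.J4.H74.OZ.keep hs (hfew B hB) hf' hV' hκ h1 A
      refine ⟨M₀, fun M hM => le_trans ?_ (h M hM)⟩
      have hsub : {m : ℕ | 1 ≤ m ∧ m ≤ M ∧ ¬ AllFail F B (c / 2) (V (f m)) ((f m : ℝ) ^ κ)} ⊆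
          {m : ℕ | 1 ≤ m ∧ m ≤ M ∧ ¬ Pool.Agent.J4.H74.OZ.AllGood (Bad F B c) (V (f m)) ((f m : ℝ) ^ κ)} :=
        fun m hm => ⟨hm.1, hm.2.1, fun h => hm.2.2 (hall _ _ h)⟩
      exact_mod_cast Set.ncard_le_ncard hsub ((Set.finite_Iic M).subset fun m hm => hm.2.1)
    · obtain ⟨K, hK, h⟩ := Pool.Agent.J4.H74.OZ.orbit hs (hfew B hB) hf' hV' hκ h1
      exact ⟨K, hK, h.mono fun m _ h4 k hk => hall _ _ (h4 k hk)⟩
  · intro p b c h0 h1 hb hc
    exact Pool.Agent.J4.H74.OZ.hom_pow h0 h1 hb hc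
  · intro α h0 h1
    exact Pool.Agent.J4.H74.OZ.hom_mul h0 h1
  · have h := Pool.Agent.N733.TG.lm_totient
    exact ⟨h.mul, h.pos, h.growth, h.prime⟩
  · have h := Pool.Agent.N733.TG.lm_sigma
    exact ⟨h.mul, h.pos, h.growth, h.prime⟩
  · have h := Pool.Agent.N760.IT.lm_id
    exact ⟨h.mul, h.pos, h.growth, h.prime⟩
  · intro α d hα hd
    have h := Pool.Agent.N733.TG.expanding_pow hα hd
    exact ⟨h.one_le, h.step, h.growth⟩

end Pool.Agent.Results.MP_ec260d_nt.MultiplicativeParameters
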