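import Pool.Agent.J4.H74.OZ.Typ
import Pool.Agent.Results.MP_ec260d_nt.AlgebraicRelations

/-!
# Differences and sums of ordinates, and other relations `γ' = f(γ) ± a`, for typical real numbers `a`

No hypothesis is assumed. Let `B_j` be sets of ordinates of zeros on the critical line, in `(0, K 2^j]`, with at least
`η 2^j log 2^j` elements (for instance all the ordinates of such zeros, by Selberg's theorem), and let `f_j` be
bi-Lipschitz functions on `B_j`, with constant `K`, `|f_j| ≤ K 2^j`; for instance `f_j(γ) = γ`, `-γ`, `α γ`. There is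
`c > 0` which depends only on `K` and `η` such that, for all the real numbers `a` below and all the scales `2^j`
between `a` and `2 a^(1 + δ)`, the relation `γ' = f_j(γ) + a`, and also the relation `γ' = f_j(γ) - a`, fails for a
proportion at least `c` of the `γ ∈ B_j`, for all zeros, up to an error `c / log 2^j` (a constant multiple of the
mean spacing of the ordinates). In particular `a` is not the difference of two ordinates, nor their sum, for a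
positive proportion of the ordinates.

1. Let `g_n`, `n = 0, 1, 2, …`, be positive functions on `(a₀, ∞)`, `a₀ ≥ 0`, such that `g_n(x) / x` is nondecreasing,
and such that the sequence `g_n(x)` has exponent of convergence at most `τ` for each `x > a₀`: for instance
`g_n(x) = v_n x` (dilatations), `g_n(x) = x ^ (v_n)`, `v_n ≥ 1` (`τ = 0`), or the orbits `g(g(⋯ g(x)))` of any map `g`
with `g(x) > x` and `g(x) / x` nondecreasing (`τ = 0`). For all `x > a₀` outside a set of Hausdorff dimension at most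
`((1 + δ) 499/500 + τ) / (1 - θ)` and all `b`, for all large `n`: ALL real numbers `a` with
`|a - g_n(x)| ≤ b g_n(x)^θ`.

2. Let `V` have steps bounded below by a positive constant and growth at most `v^d`, for instance `V(v) = v`. For
all points `α` of `ℝ^k` outside a set of Hausdorff dimension at most `(k + d (1 + δ) 499/500 + κ) / (1 + τ)`, for all
large natural numbers `q` with `‖q α_i - β_i‖ ≤ b q^(-τ)`: ALL real numbers `a` with `|a - V(q)| ≤ q^κ`.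

For instance, for all `x > 1` outside a set of Hausdorff dimension less than one: for all large `n`, ALL real numbers
`a` with `|a - x^n| ≤ x^(n/1000)` and all powers `T = 2^j` between `a` and `a^1.0005`, at least `c N` of the `N` critical
zeros `γ` up to `T` are such that `γ + a` is not the ordinate of a zero, and not within `c / log T` of an ordinate, and
the same is true for `γ - a`, and for `a - γ`.

The starting theorem `AlgebraicRelations` shows that at most `w T^(499/500)` of the `a` from a 1-spaced set are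
exceptional, at one scale `T`. Here the exceptional `a` of all scales are counted
(`Pool.Agent.J4.H74.OZ.nearS_count`), and the covering theorem for starshaped functions and the one for thin sets of
denominators, of the starting libraries `R482/ST` and `N671/DA`, are applied.
-/

set_option autoImplicit false

namespace Pool.Agent.Results.MP_ec260d_nt.TypicalTranslations

open Filter Topology Complex

/-- the functions `g n` are positive on `(a₀, ∞)`, `a₀ ≥ 0`, and `g n x / x` is nondecreasing there -/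
def Starshaped (a₀ : ℝ) (g : ℕ → ℝ → ℝ) : Prop :=
  0 ≤ a₀ ∧ ∀ n : ℕ, ∀ x y : ℝ, a₀ < x → x ≤ y → 0 < g n x ∧ g n x / x ≤ g n y / y

/-- for each `x > a₀` the exponent of convergence of the sequence `g n x` is at most `τ` -/
def ExpLe (a₀ : ℝ) (g : ℕ → ℝ → ℝ) (τ : ℝ) : Prop :=
  ∀ x : ℝ, a₀ < x → ∀ t : ℝ, τ < t → Summable (fun n : ℕ => (g n x) ^ (-t))

/-- the steps of `V` are at least a positive constant, and `V(v) ≤ C v^d`, where `d ≥ 1` -/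
structure Expanding (V : ℕ → ℝ) (d : ℝ) : Prop where
  one_le : 1 ≤ d
  step : ∃ a : ℝ, 0 < a ∧ ∀ v : ℕ, 1 ≤ v → a ≤ V (v + 1) - V v
  growth : ∃ C : ℝ, ∀ v : ℕ, 1 ≤ v → V v ≤ C * (v : ℝ) ^ d

/-- `B j` consists of ordinates `γ`, `0 < γ ≤ K 2^j`, of zeros `1/2 + i γ` of the zeta function, it has at least
`η 2^j log 2^j` elements for large `j`, and `f j` is bi-Lipschitz on `B j`, with constant `K`, and bounded by `K 2^j` -/
structure System (K η : ℝ) (B : ℕ → Finset ℝ) (f : ℕ → ℝ → ℝ) : Prop where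
  zero : ∀ j : ℕ, ∀ γ ∈ B j, 0 < γ ∧ γ ≤ K * 2 ^ j ∧ riemannZeta (1 / 2 + I * (γ : ℂ)) = 0
  many : ∀ᶠ j : ℕ in atTop, η * 2 ^ j * Real.log (2 ^ j) ≤ (B j).card
  bound : ∀ j : ℕ, ∀ γ ∈ B j, |f j γ| ≤ K * 2 ^ j
  lip : ∀ j : ℕ, ∀ γ ∈ B j, ∀ γ' ∈ B j, |γ - γ'| ≤ K * |f j γ - f j γ'| ∧ |f j γ - f j γ'| ≤ K * |γ - γ'|

/-- The relation `γ' = f_j(γ) + a` fails at the scale `2^j`: for at least `c |B j|` of the `γ ∈ B j` no zero of the zeta
function is closer than `c / log 2^j` to `1/2 + i (f_j(γ) + a)`. -/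
def Fails (B : ℕ → Finset ℝ) (f : ℕ → ℝ → ℝ) (c : ℝ) (j : ℕ) (a : ℝ) : Prop :=
  c * (B j).card ≤ ({γ : ℝ | γ ∈ B j ∧ ∀ ρ : ℂ, riemannZeta ρ = 0 →
    c / Real.log (2 ^ j) ≤ ‖ρ - (1 / 2 + I * ((f j γ + a : ℝ) : ℂ))‖}.ncard : ℝ)

/-- the relations `γ' = f_j(γ) + a` and `γ' = f_j(γ) - a` fail, for all real numbers `a ≥ 2` with `|a - x| ≤ w` and all
scales `2^j` between `a` and `2 a^(1 + δ)` -/
def AllFail (B : ℕ → Finset ℝ) (f : ℕ → ℝ → ℝ) (c δ x w : ℝ) : Prop :=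
  ∀ a : ℝ, 2 ≤ a → |a - x| ≤ w → ∀ j : ℕ, a < 2 ^ j → (2 : ℝ) ^ j ≤ 2 * a ^ (1 + δ) →
    Fails B f c j a ∧ Fails B f c j (-a)

lemma few (K η : ℝ) (hη : 0 < η) : ∃ c : ℝ, 0 < c ∧ ∀ (B : ℕ → Finset ℝ) (f : ℕ → ℝ → ℝ), System K η B f →
    Pool.Agent.J4.H74.OZ.FewS (499 / 500) (fun j a => ¬ (Fails B f c j a ∧ Fails B f c j (-a))) := by
  obtain ⟨K₁, hK₁⟩ : ∃ K₁ : ℝ, K₁ = max K 1 := ⟨_, rfl⟩
  have hK1 : 1 ≤ K₁ := by rw [hK₁]; exact le_max_right _ _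
  have hKK : K ≤ K₁ := by rw [hK₁]; exact le_max_left _ _
  obtain ⟨c, T₁, hc, h⟩ := AlgebraicRelations.result K₁ η hη
  refine ⟨c, hc, fun B f hS => ?_⟩
  obtain ⟨j₁, hj₁⟩ := eventually_atTop.1 hS.many
  have hlim : ∀ᶠ j : ℕ in atTop, T₁ ≤ (2 : ℝ) ^ j :=
    (tendsto_pow_atTop_atTop_of_one_lt (by norm_num : (1 : ℝ) < 2)).eventually_ge_atTop T₁
  obtain ⟨j₂, hj₂⟩ := eventually_atTop.1 hlim
  refine ⟨3, max j₁ j₂, by norm_num, fun j hj A g w hA hw => ?_⟩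
  have hT0 : (0 : ℝ) < 2 ^ j := by positivity
  have hKT : K * 2 ^ j ≤ K₁ * 2 ^ j := mul_le_mul_of_nonneg_right hKK hT0.le
  have h0 := h (2 ^ j) (hj₂ j ((le_max_right _ _).trans hj)) (B j)
    (fun γ hγ => ⟨(hS.zero j γ hγ).1, (hS.zero j γ hγ).2.1.trans hKT, (hS.zero j γ hγ).2.2⟩)
    (hj₁ j ((le_max_left _ _).trans hj)) (f j) (fun γ hγ => (hS.bound j γ hγ).trans hKT)
    (fun γ hγ γ' hγ' => ⟨(hS.lip j γ hγ γ' hγ').1.trans (mul_le_mul_of_nonneg_right hKK (abs_nonneg _)),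
      (hS.lip j γ hγ γ' hγ').2.trans (mul_le_mul_of_nonneg_right hKK (abs_nonneg _))⟩) ℕ A
  have hgb : ∀ a ∈ A, |g a| ≤ K₁ * 2 ^ j := by
    intro a ha
    rw [abs_of_nonneg (hA a ha).1]
    refine (hA a ha).2.trans ?_
    nlinarith
  have hp := h0 g w hgb hw
  have hn := h0 (fun a => -g a) (2 * w) (fun a ha => by rw [abs_neg]; exact hgb a ha) (by
    intro y
    have hsub : {a : ℕ | a ∈ A ∧ y ≤ -g a ∧ -g a < y + 1} ⊆
        {a : ℕ | a ∈ A ∧ (-y - 1) ≤ g a ∧ g a < (-y - 1) + 1} ∪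
        {a : ℕ | a ∈ A ∧ (-y) ≤ g a ∧ g a < (-y) + 1} := by
      rintro a ⟨h1, h2, h3⟩
      rcases lt_or_ge (g a) (-y) with h4 | h4
      · exact Or.inl ⟨h1, by linarith, by linarith⟩
      · exact Or.inr ⟨h1, h4, by linarith⟩
    have hfin : ({a : ℕ | a ∈ A ∧ (-y - 1) ≤ g a ∧ g a < (-y - 1) + 1} ∪
        {a : ℕ | a ∈ A ∧ (-y) ≤ g a ∧ g a < (-y) + 1}).Finite :=
      (A.finite_toSet.subset fun a ha => ha.1).union (A.finite_toSet.subset fun a ha => ha.1)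
    have h4 : ({a : ℕ | a ∈ A ∧ y ≤ -g a ∧ -g a < y + 1}.ncard : ℝ) ≤
        ({a : ℕ | a ∈ A ∧ (-y - 1) ≤ g a ∧ g a < (-y - 1) + 1}.ncard : ℝ) +
        ({a : ℕ | a ∈ A ∧ (-y) ≤ g a ∧ g a < (-y) + 1}.ncard : ℝ) := by
      exact_mod_cast (Set.ncard_le_ncard hsub hfin).trans (Set.ncard_union_le _ _)
    linarith [hw (-y - 1), hw (-y)])
  have hsub : {a : ℕ | a ∈ A ∧ ¬ (Fails B f c j (g a) ∧ Fails B f c j (-g a))} ⊆
      {a : ℕ | a ∈ A ∧ ({γ : ℝ | γ ∈ B j ∧ ∀ ρ : ℂ, riemannZeta ρ = 0 →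
        c / Real.log (2 ^ j) ≤ ‖ρ - (1 / 2 + I * ((f j γ + g a : ℝ) : ℂ))‖}.ncard : ℝ) < c * (B j).card} ∪
      {a : ℕ | a ∈ A ∧ ({γ : ℝ | γ ∈ B j ∧ ∀ ρ : ℂ, riemannZeta ρ = 0 →
        c / Real.log (2 ^ j) ≤ ‖ρ - (1 / 2 + I * ((f j γ + -g a : ℝ) : ℂ))‖}.ncard : ℝ) < c * (B j).card} := by
    rintro a ⟨h1, h2⟩
    by_cases h3 : Fails B f c j (g a)
    · right
      refine ⟨h1, ?_⟩
      by_contra h4
      exact h2 ⟨h3, not_lt.1 h4⟩
    · left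
      exact ⟨h1, not_le.1 h3⟩
  have hfin := ((A.finite_toSet.subset fun a ha => ha.1 :
      ({a : ℕ | a ∈ A ∧ ({γ : ℝ | γ ∈ B j ∧ ∀ ρ : ℂ, riemannZeta ρ = 0 →
        c / Real.log (2 ^ j) ≤ ‖ρ - (1 / 2 + I * ((f j γ + g a : ℝ) : ℂ))‖}.ncard : ℝ) <
          c * (B j).card} : Set ℕ).Finite)).union ((A.finite_toSet.subset fun a ha => ha.1 :
      ({a : ℕ | a ∈ A ∧ ({γ : ℝ | γ ∈ B j ∧ ∀ ρ : ℂ, riemannZeta ρ = 0 →
        c / Real.log (2 ^ j) ≤ ‖ρ - (1 / 2 + I * ((f j γ + -g a : ℝ) : ℂ))‖}.ncard : ℝ) <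
          c * (B j).card} : Set ℕ).Finite))
  have h5 : ({a : ℕ | a ∈ A ∧ ¬ (Fails B f c j (g a) ∧ Fails B f c j (-g a))}.ncard : ℝ) ≤
      ({a : ℕ | a ∈ A ∧ ({γ : ℝ | γ ∈ B j ∧ ∀ ρ : ℂ, riemannZeta ρ = 0 →
        c / Real.log (2 ^ j) ≤ ‖ρ - (1 / 2 + I * ((f j γ + g a : ℝ) : ℂ))‖}.ncard : ℝ) <
          c * (B j).card}.ncard : ℝ) +
      ({a : ℕ | a ∈ A ∧ ({γ : ℝ | γ ∈ B j ∧ ∀ ρ : ℂ, riemannZeta ρ = 0 →
        c / Real.log (2 ^ j) ≤ ‖ρ - (1 / 2 + I * ((f j γ + -g a : ℝ) : ℂ))‖}.ncard : ℝ) <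
          c * (B j).card}.ncard : ℝ) := by
    exact_mod_cast (Set.ncard_le_ncard hsub hfin).trans (Set.ncard_union_le _ _)
  refine h5.trans ?_
  calc _ ≤ w * ((2 : ℝ) ^ j) ^ (499 / 500 : ℝ) + 2 * w * ((2 : ℝ) ^ j) ^ (499 / 500 : ℝ) := add_le_add hp hn
    _ = 3 * w * ((2 : ℝ) ^ j) ^ (499 / 500 : ℝ) := by ring

/-- **Relations `γ' = f(γ) ± a` for typical real numbers `a`.** For all `K` and `η > 0` there is `c > 0` such that for
all sets `B j` of ordinates of critical zeros and bi-Lipschitz functions `f j` (`System`) and all `δ ≥ 0`: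

(1) if `g n` is `Starshaped` on `(a₀, ∞)`, with exponent of convergence at most `τ`, and `0 ≤ θ < 1`: for all `x > a₀`
outside a set of Hausdorff dimension at most `((1 + δ) 499/500 + τ) / (1 - θ)`, all `b` and all large `n`, the relations
`γ' = f_j(γ) ± a` fail for ALL real `a ≥ 2` with `|a - g_n(x)| ≤ b g_n(x)^θ`, at all scales `2^j` between `a` and
`2 a^(1 + δ)` (`AllFail`);

(2) if `V` is expanding with exponent `d`, `0 ≤ κ ≤ 1`, `τ > 0`: for all `α ∈ ℝ^k` outside a set of Hausdorff dimension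
at most `(k + d (1 + δ) 499/500 + κ) / (1 + τ)`, all `b` and all large `q` with `‖q α_i - β_i‖ ≤ b q^(-τ)`, the same holds
for ALL real `a ≥ 2` with `|a - V(q)| ≤ q^κ`. -/
theorem result :
    (∀ K η : ℝ, 0 < η → ∃ c : ℝ, 0 < c ∧ ∀ (B : ℕ → Finset ℝ) (f : ℕ → ℝ → ℝ), System K η B f →
      ∀ δ : ℝ, 0 ≤ δ →
      (∀ (g : ℕ → ℝ → ℝ) (a₀ τ θ : ℝ), Starshaped a₀ g → 0 ≤ τ → ExpLe a₀ g τ → 0 ≤ θ → θ < 1 →
        ∃ E : Set ℝ, dimH E ≤ ENNReal.ofReal (((1 + δ) * (499 / 500) + τ) / (1 - θ)) ∧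
          ∀ x : ℝ, a₀ < x → x ∉ E → ∀ b : ℝ, ∃ n₀ : ℕ, ∀ n : ℕ, n₀ ≤ n →
            AllFail B f c δ (g n x) (b * (g n x) ^ θ)) ∧
      ∀ (V : ℕ → ℝ) (d κ τ : ℝ), Expanding V d → 0 ≤ κ → κ ≤ 1 → 0 < τ → ∀ (k : ℕ) (β : Fin k → ℝ),
        ∃ E : Set (Fin k → ℝ), dimH E ≤ ENNReal.ofReal ((k + (d * ((1 + δ) * (499 / 500)) + κ)) / (1 + τ)) ∧
          ∀ α, α ∉ E → ∀ b : ℝ, ∃ Q : ℕ, ∀ q : ℕ, Q ≤ q →
            (∀ i, ∃ p : ℤ, |(q : ℝ) * α i - β i - p| ≤ b * (q : ℝ) ^ (-τ)) →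
            AllFail B f c δ (V q) ((q : ℝ) ^ κ)) ∧
    (∀ (v : ℕ → ℝ) (τ : ℝ), (∀ n, 0 < v n) → (∀ t : ℝ, τ < t → Summable (fun n : ℕ => (v n) ^ (-t))) →
      Starshaped 0 (fun n x => v n * x) ∧ ExpLe 0 (fun n x => v n * x) τ) ∧
    (∀ v : ℕ → ℝ, (∀ n, 1 ≤ v n) → (∀ t : ℝ, 0 < t → Summable fun n : ℕ => Real.exp (-(t * v n))) →
      Starshaped 1 (fun n x => x ^ (v n)) ∧ ExpLe 1 (fun n x => x ^ (v n)) 0) ∧
    (∀ (a₀ : ℝ) (g : ℝ → ℝ), 0 ≤ a₀ → (∀ x y : ℝ, a₀ < x → x ≤ y → g x / x ≤ g y / y) → (∀ x : ℝ, a₀ < x → x < g x) →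
      Starshaped a₀ (fun n x => g^[n] x) ∧ ExpLe a₀ (fun n x => g^[n] x) 0) ∧
    ∀ α d : ℝ, 0 < α → 1 ≤ d → Expanding (fun v => α * (v : ℝ) ^ d) d := by
  refine ⟨?_, Pool.Agent.R482.ST.ex_mul, Pool.Agent.R482.ST.ex_pow, Pool.Agent.R482.ST.ex_orbit, ?_⟩
  · intro K η hη
    obtain ⟨c, hc, hfew⟩ := few K η hη
    refine ⟨c, hc, fun B f hS δ hδ => ?_⟩
    have hs : (0 : ℝ) ≤ 499 / 500 := by norm_num
    have hall : ∀ x w : ℝ, Pool.Agent.J4.H74.OZ.AllGoodS δ (fun j a => ¬ (Fails B f c j a ∧ Fails B f c j (-a))) x w →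
        AllFail B f c δ x w := fun x w h a ha hax j hj1 hj2 => not_not.1 (h a ha hax j hj1 hj2)
    refine ⟨fun g a₀ τ θ hg hτ hv hθ0 hθ => ?_, fun V d κ τ hV hκ hκ1 hτ k β => ?_⟩
    · obtain ⟨E, h1, h2⟩ := Pool.Agent.J4.H74.OZ.star hs hδ (hfew B f hS) hg hτ hv hθ0 hθ
      refine ⟨E, h1, fun x hx hxE b => ?_⟩
      obtain ⟨n₀, hn₀⟩ := h2 x hx hxE b
      exact ⟨n₀, fun n hn => hall _ _ (hn₀ n hn)⟩
    · obtain ⟨E, h1, h2⟩ := Pool.Agent.J4.H74.OZ.dens hs hδ (hfew B f hS) (V := V) (d := d)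
        ⟨hV.one_le, hV.step, hV.growth⟩ hκ hκ1 hτ β
      refine ⟨E, h1, fun α hα b => ?_⟩
      obtain ⟨Q, hQ⟩ := h2 α hα b
      exact ⟨Q, fun q hq hap => hall _ _ (hQ q hq hap)⟩
  · intro α d hα hd
    have h := Pool.Agent.N733.TG.expanding_pow hα hd
    exact ⟨h.one_le, h.step, h.growth⟩

end Pool.Agent.Results.MP_ec260d_nt.TypicalTranslations
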